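import Mathlib
import Pool.Agent.ExpSum.Count

/-!
Primes in short intervals not dividing the central binomial coefficient.
-/

namespace Pool.Agent.CBRecip

open Finset Nat Pool.Agent.ExpSum

/-- If `p ∤ C(2n, n)` then `2 (n mod p^m) < p^m` for every `m ≥ 1`. -/
theorem two_mul_mod_lt {n p m : ℕ} (hp : p.Prime) (h : ¬ p ∣ centralBinom n) (hm : 1 ≤ m) :
    2 * (n % p ^ m) < p ^ m := by
  by_contra hcon
  push Not at hcon
  apply h
  have h1 : (choose (n + n) n).factorization p =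
      #{i ∈ Ico 1 (max (log p (n + n) + 1) (m + 1)) | p ^ i ≤ n % p ^ i + n % p ^ i} :=
    Nat.factorization_choose' hp (by
      exact lt_of_lt_of_le (Nat.lt_succ_self _) (le_max_left _ _))
  have h2 : 0 < (choose (n + n) n).factorization p := by
    rw [h1, Finset.card_pos]
    refine ⟨m, ?_⟩
    rw [mem_filter, mem_Ico]
    refine ⟨⟨hm, lt_of_lt_of_le (Nat.lt_succ_self m) (le_max_right _ _)⟩, ?_⟩
    omega
  rw [Nat.centralBinom_eq_two_mul_choose, two_mul]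
  exact Nat.dvd_of_factorization_pos h2.ne'

theorem sin_nonneg {n p m : ℕ} (hp : p.Prime) (h : ¬ p ∣ centralBinom n) (hm : 1 ≤ m) :
    0 ≤ Real.sin (2 * Real.pi * ((n : ℝ) / (p : ℝ) ^ m)) := by
  have h1 := two_mul_mod_lt hp h hm
  have hpm : (0 : ℝ) < (p : ℝ) ^ m := by
    have : (0 : ℝ) < p := by exact_mod_cast hp.pos
    positivity
  have h2 : (n : ℝ) = (p : ℝ) ^ m * ((n / p ^ m : ℕ) : ℝ) + ((n % p ^ m : ℕ) : ℝ) := by
    exact_mod_cast (Nat.div_add_mod n (p ^ m)).symm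
  have h3 : 2 * Real.pi * ((n : ℝ) / (p : ℝ) ^ m) =
      2 * Real.pi * (((n % p ^ m : ℕ) : ℝ) / (p : ℝ) ^ m) +
      ((n / p ^ m : ℕ) : ℝ) * (2 * Real.pi) := by
    conv_lhs => rw [h2]
    field_simp
    ring
  rw [h3, Real.sin_add_nat_mul_two_pi]
  have h4 : ((n % p ^ m : ℕ) : ℝ) / (p : ℝ) ^ m ≤ 1 / 2 := by
    rw [div_le_iff₀ hpm]
    have : (2 : ℝ) * ((n % p ^ m : ℕ) : ℝ) ≤ (p : ℝ) ^ m := by exact_mod_cast h1.le
    linarith
  have hpi := Real.pi_pos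
  refine Real.sin_nonneg_of_nonneg_of_le_pi (by positivity) ?_
  nlinarith

theorem one_le_W {n r m0 p : ℕ} (hp : p.Prime) (h : ¬ p ∣ centralBinom n) (hm : 1 ≤ m0) :
    1 ≤ W n r m0 p := by
  rw [W]
  have : ∀ i : Fin r, 1 ≤ F ((n : ℝ) / (p : ℝ) ^ (m0 + (i : ℕ))) := fun i =>
    one_le_F (sin_nonneg hp h (by omega))
  calc (1 : ℝ) = ∏ _i : Fin r, (1 : ℝ) := by simp
    _ ≤ _ := Finset.prod_le_prod (fun _ _ => zero_le_one) fun i _ => this i

theorem count_short {n P H u r m0 kap D : ℕ} (hP : 2 ≤ P)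
    (hu1 : P ^ u ≤ n) (hu2 : n < P ^ (u + 1)) (hm0 : 1 ≤ m0) (hm : m0 + (r + 5) = u)
    (hD : 1 ≤ D) (hDP : D ≤ P) (hkap : kap = r + 7) (hr1 : 1 ≤ r)
    (H1 : 64 * (kap : ℝ) * 2 ^ kap * Real.log (Real.log P) ≤ Real.log P)
    (H1' : 1 ≤ Real.log (Real.log P))
    (H2 : 8 * ((kap : ℝ) + 2) * Real.log (16 * ((kap : ℝ) + 2) * u * (D * D : ℕ)) ≤ Real.log P)
    (H3 : ((P + H : ℕ) : ℝ) ^ (u + kap) ≤ 2 * (P : ℝ) ^ (u + kap))
    (H4 : Real.exp (Real.log P / 2) ≤ H) :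
    (((Ioc P (P + H)).filter fun p => p.Prime ∧ ¬ p ∣ centralBinom n).card : ℝ) ≤
      (3 / 4) ^ r * H * (1 / Real.log (D + 1) + 2 / Real.log P) := by
  have hPr : (2 : ℝ) ≤ P := by exact_mod_cast hP
  have hk8 : 8 ≤ kap := by omega
  obtain ⟨L, hL⟩ : ∃ L, L = Real.log P := ⟨_, rfl⟩
  rw [← hL] at H1 H1' H2 H4 ⊢
  have hLpos : 0 < L := by rw [hL]; exact Real.log_pos (by linarith)
  obtain ⟨f1, f2, f3, f4, f5⟩ := L_facts hk8 hLpos H1' H1
  have hkr : (8 : ℝ) ≤ kap := by exact_mod_cast hk8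
  have hu0 : (1 : ℝ) ≤ u := by exact_mod_cast (by omega : 1 ≤ u)
  have hDr : (1 : ℝ) ≤ D := by exact_mod_cast hD
  have hHpos : (0 : ℝ) < H := lt_of_lt_of_le (Real.exp_pos _) H4
  -- type I information
  set R : ℕ → ℝ := fun d => 1 + (3 / 2) ^ r * (((H : ℝ) / d + 1 + (P : ℝ) ^ ((2 : ℝ) / 7)) *
        (5 / L ^ 8)) with hR
  have hTI : ∀ d, 1 ≤ d → d ≤ D * D →
      |∑ x ∈ Ioc P (P + H) with d ∣ x, W n r m0 x - (3 / 4) ^ r * H / d| ≤ R d := by
    intro d hd hdD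
    have hdr : (1 : ℝ) ≤ d := by exact_mod_cast hd
    have h2 : 8 * ((kap : ℝ) + 2) * Real.log (16 * ((kap : ℝ) + 2) * u * d) ≤ Real.log P := by
      rw [← hL]
      refine le_trans ?_ H2
      refine mul_le_mul_of_nonneg_left ?_ (by positivity)
      refine Real.log_le_log (by positivity) ?_
      have : (d : ℝ) ≤ (D * D : ℕ) := by exact_mod_cast hdD
      gcongr
    have := typeI (n := n) (P := P) (H := H) (u := u) (r := r) (m0 := m0) (kap := kap) (d := d)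
      hP hu1 hu2 hm0 hm hd hkap (by rw [← hL]; exact H1) (by rw [← hL]; exact H1') h2 H3
    rw [← hL] at this
    exact this
  have hS := selberg hD (Ioc P (P + H)) (W n r m0) (fun x _ => W_nonneg n r m0 x)
    (X := (3 / 4) ^ r * H) (by positivity) R hTI
  have h1 : (((Ioc P (P + H)).filter fun p => p.Prime ∧ ¬ p ∣ centralBinom n).card : ℝ) ≤
      ∑ x ∈ Ioc P (P + H) with (x.Prime ∧ D < x), W n r m0 x := by
    rw [Finset.card_eq_sum_ones, Nat.cast_sum]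
    calc ∑ x ∈ (Ioc P (P + H)).filter (fun p => p.Prime ∧ ¬ p ∣ centralBinom n), ((1 : ℕ) : ℝ)
        ≤ ∑ x ∈ (Ioc P (P + H)).filter (fun p => p.Prime ∧ ¬ p ∣ centralBinom n),
          W n r m0 x := by
          refine Finset.sum_le_sum fun p hp => ?_
          rw [mem_filter] at hp
          rw [Nat.cast_one]
          exact one_le_W hp.2.1 hp.2.2 hm0
      _ ≤ _ := by
          refine Finset.sum_le_sum_of_subset_of_nonneg ?_ fun x _ _ => W_nonneg n r m0 x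
          intro p hp
          rw [mem_filter, mem_Ioc] at hp ⊢
          exact ⟨hp.1, hp.2.1, lt_of_le_of_lt hDP hp.1.1⟩
  refine h1.trans (hS.trans ?_)
  have h34 : (0 : ℝ) < (3 / 4) ^ r := by positivity
  have h2r : (2 : ℝ) ^ r ≤ L := by
    refine le_trans ?_ f2
    exact pow_le_pow_right₀ (by norm_num) (by omega)
  have h32 : (3 / 2 : ℝ) ^ r = (3 / 4) ^ r * 2 ^ r := by rw [← mul_pow]; norm_num
  have hL0 : 0 < Real.log L := by linarith
  -- the error sum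
  have hRsum : ∑ d ∈ Icc 1 D, ∑ e ∈ Icc 1 D, R (Nat.lcm d e) =
      (D : ℝ) * D * (1 + (3 / 2) ^ r * ((1 + (P : ℝ) ^ ((2 : ℝ) / 7)) * (5 / L ^ 8))) +
      (3 / 2) ^ r * (5 / L ^ 8) * H *
        ∑ d ∈ Icc 1 D, ∑ e ∈ Icc 1 D, 1 / (Nat.lcm d e : ℝ) := by
    rw [hR]
    have e1 : ∀ d e : ℕ, 1 + (3 / 2 : ℝ) ^ r * (((H : ℝ) / (Nat.lcm d e : ℕ) + 1 +
        (P : ℝ) ^ ((2 : ℝ) / 7)) * (5 / L ^ 8)) =
        (1 + (3 / 2) ^ r * ((1 + (P : ℝ) ^ ((2 : ℝ) / 7)) * (5 / L ^ 8))) +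
        (3 / 2) ^ r * (5 / L ^ 8) * H * (1 / (Nat.lcm d e : ℝ)) := by
      intro d e
      ring
    simp_rw [e1, Finset.sum_add_distrib, ← Finset.mul_sum]
    simp only [Finset.sum_const, Nat.card_Icc, Nat.add_sub_cancel, nsmul_eq_mul]
    ring
  rw [hRsum]
  have hD2 : (D : ℝ) * D ≤ Real.exp (L / 80) := by
    have h3 : Real.log ((D : ℝ) * D) ≤ L / 80 := by
      have h4 : Real.log ((D : ℝ) * D) ≤
          Real.log (16 * ((kap : ℝ) + 2) * u * (D * D : ℕ)) := by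
        refine Real.log_le_log (by positivity) ?_
        push_cast
        have h5 : (1 : ℝ) ≤ 16 * ((kap : ℝ) + 2) * u :=
          one_le_mul_of_one_le_of_one_le (by linarith) hu0
        calc (D : ℝ) * D = 1 * ((D : ℝ) * D) := by ring
          _ ≤ _ := by gcongr
      have h6 : 0 ≤ Real.log ((D : ℝ) * D) :=
        Real.log_nonneg (one_le_mul_of_one_le_of_one_le hDr hDr)
      have h7 : 80 * Real.log ((D : ℝ) * D) ≤ 8 * ((kap : ℝ) + 2) *
          Real.log (16 * ((kap : ℝ) + 2) * u * (D * D : ℕ)) := by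
        refine mul_le_mul (by linarith) h4 h6 (by positivity)
      linarith
    calc (D : ℝ) * D = Real.exp (Real.log ((D : ℝ) * D)) :=
          (Real.exp_log (by positivity)).symm
      _ ≤ _ := Real.exp_le_exp.2 h3
  have hlogD : 1 + Real.log D ≤ L := by
    have h3 : Real.log ((D : ℝ) * D) ≤ L / 80 := by
      rw [Real.log_le_iff_le_exp (by positivity)]
      exact hD2
    rw [Real.log_mul (by positivity) (by positivity)] at h3
    linarith
  have hlogD0 : 0 ≤ Real.log D := Real.log_nonneg hDr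
  have hL512 : 512 ≤ L := by linarith
  -- third term
  have hthird : (3 / 2 : ℝ) ^ r * (5 / L ^ 8) * H *
      ∑ d ∈ Icc 1 D, ∑ e ∈ Icc 1 D, 1 / (Nat.lcm d e : ℝ) ≤ (3 / 4) ^ r * H * (1 / L) := by
    have h3 := sum_inv_lcm_le D
    have h4 : (1 + Real.log D) ^ 3 ≤ L ^ 3 := pow_le_pow_left₀ (by linarith) hlogD 3
    calc (3 / 2 : ℝ) ^ r * (5 / L ^ 8) * H *
        ∑ d ∈ Icc 1 D, ∑ e ∈ Icc 1 D, 1 / (Nat.lcm d e : ℝ)
        ≤ (3 / 2 : ℝ) ^ r * (5 / L ^ 8) * H * L ^ 3 := by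
          refine mul_le_mul_of_nonneg_left (h3.trans h4) (by positivity)
      _ = (3 / 4) ^ r * 2 ^ r * (5 / L ^ 8) * H * L ^ 3 := by rw [h32]
      _ ≤ (3 / 4) ^ r * L * (5 / L ^ 8) * H * L ^ 3 := by gcongr
      _ = (3 / 4) ^ r * H * (5 / L ^ 4) := by
          field_simp
      _ ≤ _ := by
          refine mul_le_mul_of_nonneg_left ?_ (by positivity)
          rw [div_le_div_iff₀ (by positivity) hLpos]
          have : L ^ 4 = L ^ 3 * L := by ring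
          rw [this, one_mul]
          refine mul_le_mul_of_nonneg_right ?_ hLpos.le
          have h5 : L ≤ L ^ 3 := le_self_pow₀ (by linarith) (by norm_num)
          linarith
  -- second term
  have hsecond : (D : ℝ) * D * (1 + (3 / 2) ^ r * ((1 + (P : ℝ) ^ ((2 : ℝ) / 7)) *
      (5 / L ^ 8))) ≤ (3 / 4) ^ r * H * (1 / L) := by
    have hP27 : (P : ℝ) ^ ((2 : ℝ) / 7) = Real.exp (2 / 7 * L) := by
      rw [Real.rpow_def_of_pos (by linarith), ← hL, mul_comm]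
    have h3 : (3 / 2 : ℝ) ^ r * (5 / L ^ 8) ≤ 1 := by
      rw [h32]
      have h4 : (3 / 4 : ℝ) ^ r ≤ 1 := pow_le_one₀ (by norm_num) (by norm_num)
      calc (3 / 4 : ℝ) ^ r * 2 ^ r * (5 / L ^ 8) ≤ 1 * L * (5 / L ^ 8) := by gcongr
        _ = 5 / L ^ 7 := by field_simp
        _ ≤ 1 := by
            rw [div_le_one (by positivity)]
            have h5 : L ≤ L ^ 7 := le_self_pow₀ (by linarith) (by norm_num)
            linarith
    have h5 : 1 + (3 / 2 : ℝ) ^ r * ((1 + (P : ℝ) ^ ((2 : ℝ) / 7)) * (5 / L ^ 8)) ≤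
        3 * Real.exp (2 / 7 * L) := by
      have h6 : (3 / 2 : ℝ) ^ r * ((1 + (P : ℝ) ^ ((2 : ℝ) / 7)) * (5 / L ^ 8)) =
          ((3 / 2 : ℝ) ^ r * (5 / L ^ 8)) * (1 + (P : ℝ) ^ ((2 : ℝ) / 7)) := by ring
      have h7 : (1 : ℝ) ≤ Real.exp (2 / 7 * L) := Real.one_le_exp (by positivity)
      rw [h6, hP27]
      have h8 : ((3 / 2 : ℝ) ^ r * (5 / L ^ 8)) * (1 + Real.exp (2 / 7 * L)) ≤
          1 * (1 + Real.exp (2 / 7 * L)) := by gcongr
      linarith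
    have h9 : (3 : ℝ) ≤ Real.exp 2 := by
      have := Real.add_one_le_exp (2 : ℝ); linarith
    have hLL : L = Real.exp (Real.log L) := (Real.exp_log hLpos).symm
    have h10 : (D : ℝ) * D * (1 + (3 / 2) ^ r * ((1 + (P : ℝ) ^ ((2 : ℝ) / 7)) *
        (5 / L ^ 8))) * (2 ^ r * L) ≤ H := by
      calc (D : ℝ) * D * (1 + (3 / 2) ^ r * ((1 + (P : ℝ) ^ ((2 : ℝ) / 7)) *
          (5 / L ^ 8))) * (2 ^ r * L)
          ≤ Real.exp (L / 80) * (3 * Real.exp (2 / 7 * L)) * (L * L) := by gcongr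
        _ ≤ Real.exp (L / 80) * (Real.exp 2 * Real.exp (2 / 7 * L)) *
            (Real.exp (Real.log L) * Real.exp (Real.log L)) := by
            rw [← hLL]
            gcongr
        _ = Real.exp (L / 80 + (2 + 2 / 7 * L) + (Real.log L + Real.log L)) := by
            rw [Real.exp_add, Real.exp_add, Real.exp_add, Real.exp_add]
        _ ≤ Real.exp (L / 2) := Real.exp_le_exp.2 (by linarith)
        _ ≤ H := H4
    have h11 : 1 ≤ (3 / 4 : ℝ) ^ r * 2 ^ r := by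
      rw [← h32]
      exact one_le_pow₀ (by norm_num)
    have h12 : 0 ≤ (D : ℝ) * D * (1 + (3 / 2) ^ r * ((1 + (P : ℝ) ^ ((2 : ℝ) / 7)) *
        (5 / L ^ 8))) := by positivity
    rw [mul_one_div, le_div_iff₀ hLpos]
    calc (D : ℝ) * D * (1 + (3 / 2) ^ r * ((1 + (P : ℝ) ^ ((2 : ℝ) / 7)) *
        (5 / L ^ 8))) * L
        = 1 * ((D : ℝ) * D * (1 + (3 / 2) ^ r * ((1 + (P : ℝ) ^ ((2 : ℝ) / 7)) *
        (5 / L ^ 8))) * L) := by ring
      _ ≤ ((3 / 4 : ℝ) ^ r * 2 ^ r) * ((D : ℝ) * D * (1 + (3 / 2) ^ r *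
        ((1 + (P : ℝ) ^ ((2 : ℝ) / 7)) * (5 / L ^ 8))) * L) :=
          mul_le_mul_of_nonneg_right h11 (by positivity)
      _ = (3 / 4 : ℝ) ^ r * ((D : ℝ) * D * (1 + (3 / 2) ^ r *
        ((1 + (P : ℝ) ^ ((2 : ℝ) / 7)) * (5 / L ^ 8))) * (2 ^ r * L)) := by ring
      _ ≤ (3 / 4 : ℝ) ^ r * H := mul_le_mul_of_nonneg_left h10 h34.le
  have hfin : (3 / 4 : ℝ) ^ r * H * (1 / Real.log (D + 1) + 2 / L) =
      (3 / 4) ^ r * H / Real.log (D + 1) + ((3 / 4) ^ r * H * (1 / L) +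
        (3 / 4) ^ r * H * (1 / L)) := by ring
  rw [hfin]
  linarith

end Pool.Agent.CBRecip
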