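import Mathlib
import Pool.Agent.CBRecip.Short

/-!
Primes in dyadic intervals not dividing the central binomial coefficient.
-/

namespace Pool.Agent.CBRecip

open Finset Nat Pool.Agent.ExpSum

/-- primes in `(a, b]` not dividing `C(2n, n)` -/
def bad (n a b : ℕ) : Finset ℕ := (Ioc a b).filter fun p => p.Prime ∧ ¬ p ∣ centralBinom n

theorem bad_card_blocks (n Q H : ℕ) {B : ℝ} (J : ℕ)
    (hB : ∀ j < J, ((bad n (Q + j * H) (Q + j * H + H)).card : ℝ) ≤ B) :
    ((bad n Q (Q + J * H)).card : ℝ) ≤ J * B := by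
  induction J with
  | zero => simp [bad]
  | succ J ih =>
    have h1 := ih fun j hj => hB j (by omega)
    have h2 := hB J (Nat.lt_succ_self J)
    have h3 : bad n Q (Q + (J + 1) * H) ⊆
        bad n Q (Q + J * H) ∪ bad n (Q + J * H) (Q + J * H + H) := by
      intro p hp
      rw [bad, mem_filter, mem_Ioc] at hp
      rw [mem_union, bad, bad, mem_filter, mem_filter, mem_Ioc, mem_Ioc]
      have e1 : Q + (J + 1) * H = Q + J * H + H := by ring
      rw [e1] at hp
      by_cases h : p ≤ Q + J * H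
      · exact Or.inl ⟨⟨hp.1.1, h⟩, hp.2⟩
      · exact Or.inr ⟨⟨by omega, hp.1.2⟩, hp.2⟩
    have h4 : ((bad n Q (Q + (J + 1) * H)).card : ℝ) ≤
        ((bad n Q (Q + J * H)).card : ℝ) + ((bad n (Q + J * H) (Q + J * H + H)).card : ℝ) := by
      have := (Finset.card_le_card h3).trans (Finset.card_union_le _ _)
      exact_mod_cast this
    push_cast
    linarith

theorem dyadic {n Q r kap u : ℕ} (hQ : 2 ≤ Q) (hr : 1 ≤ r) (hkap : kap = r + 7)
    (hu : u = Nat.log Q n) (hu2 : r + 6 ≤ Nat.log (2 * Q) n)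
    (H1 : 64 * (kap : ℝ) * 2 ^ kap * Real.log (Real.log Q) ≤ Real.log Q)
    (H1' : 1 ≤ Real.log (Real.log Q))
    (H2 : 16 * ((kap : ℝ) + 2) * Real.log (16 * ((kap : ℝ) + 2) * u) ≤ Real.log Q) :
    ((bad n Q (2 * Q)).card : ℝ) ≤ 66 * ((kap : ℝ) + 2) * (3 / 4) ^ r * Q / Real.log Q := by
  have hQr : (2 : ℝ) ≤ Q := by exact_mod_cast hQ
  have hk8 : 8 ≤ kap := by omega
  obtain ⟨L, hL⟩ : ∃ L, L = Real.log Q := ⟨_, rfl⟩
  rw [← hL] at H1 H1' H2 ⊢
  have hLpos : 0 < L := by rw [hL]; exact Real.log_pos (by linarith)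
  obtain ⟨f1, f2, f3, f4, f5⟩ := L_facts hk8 hLpos H1' H1
  have hL512 : 512 ≤ L := by linarith
  have hexpL : Real.exp L = Q := by rw [hL]; exact Real.exp_log (by linarith)
  have hkr : (8 : ℝ) ≤ kap := by exact_mod_cast hk8
  have hn0 : n ≠ 0 := by
    rintro rfl
    simp at hu2
  have hu7 : 7 ≤ u := by
    rw [hu]
    have : Nat.log (2 * Q) n ≤ Nat.log Q n := Nat.log_anti_left (by omega) (by omega)
    omega
  have hu7r : (7 : ℝ) ≤ u := by exact_mod_cast hu7
  have hlog2 : 0 < Real.log 2 := Real.log_pos (by norm_num)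
  have hlog2' : Real.log 2 ≤ 1 := by have := Real.log_two_lt_d9; linarith
  -- `D`
  obtain ⟨D, hD⟩ : ∃ D, D = ⌊Real.exp (L / (32 * (kap + 2)))⌋₊ := ⟨_, rfl⟩
  have hDle : (D : ℝ) ≤ Real.exp (L / (32 * (kap + 2))) := by
    rw [hD]; exact Nat.floor_le (by positivity)
  have hD1 : 1 ≤ D := by
    rw [hD, Nat.one_le_floor_iff]
    exact Real.one_le_exp (by positivity)
  have hDr : (1 : ℝ) ≤ D := by exact_mod_cast hD1
  have hDQ : D ≤ Q := by
    have h1 : (D : ℝ) ≤ Q := by
      rw [← hexpL]
      refine hDle.trans (Real.exp_le_exp.2 ?_)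
      rw [div_le_iff₀ (by positivity)]
      nlinarith
    exact_mod_cast h1
  have hlogD : Real.log D ≤ L / (32 * (kap + 2)) := by
    rw [Real.log_le_iff_le_exp (by linarith)]
    exact hDle
  have hlogD1 : L / (32 * (kap + 2)) ≤ Real.log (D + 1) := by
    rw [Real.le_log_iff_exp_le (by linarith), hD]
    exact (Nat.lt_floor_add_one _).le
  -- `H`
  obtain ⟨H, hH⟩ : ∃ H, H = Q / (2 * (u + kap)) := ⟨_, rfl⟩
  have hden : 0 < 2 * (u + kap) := by omega
  have hG : 2 * ((u : ℝ) + kap) ≤ Real.exp (L / 160) := by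
    have h1 : 16 * ((kap : ℝ) + 2) * u ≤ Real.exp (L / 160) := by
      have h2 : Real.log (16 * ((kap : ℝ) + 2) * u) ≤ L / 160 := by
        have h3 : 0 ≤ Real.log (16 * ((kap : ℝ) + 2) * u) := by
          refine Real.log_nonneg ?_
          exact one_le_mul_of_one_le_of_one_le (by linarith) (by linarith)
        have h4 : 160 * Real.log (16 * ((kap : ℝ) + 2) * u) ≤
            16 * ((kap : ℝ) + 2) * Real.log (16 * ((kap : ℝ) + 2) * u) :=
          mul_le_mul_of_nonneg_right (by linarith) h3
        linarith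
      rwa [Real.log_le_iff_le_exp (by positivity)] at h2
    refine le_trans ?_ h1
    nlinarith
  have hHup : (H : ℝ) * (2 * ((u : ℝ) + kap)) ≤ Q := by
    have : H * (2 * (u + kap)) ≤ Q := by rw [hH]; exact Nat.div_mul_le_self _ _
    exact_mod_cast this
  have hHlow : Real.exp (L / 2 + 1) ≤ H := by
    have h1 : (Q : ℝ) ≤ ((H : ℝ) + 1) * (2 * ((u : ℝ) + kap)) := by
      have := Nat.lt_div_mul_add hden (a := Q)
      have h3 : Q ≤ (H + 1) * (2 * (u + kap)) := by
        rw [hH, add_mul, one_mul]; exact this.le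
      exact_mod_cast h3
    have h2 : Real.exp (L - L / 160) ≤ (H : ℝ) + 1 := by
      rw [Real.exp_sub, hexpL, div_le_iff₀ (Real.exp_pos _)]
      refine h1.trans ?_
      exact mul_le_mul_of_nonneg_left hG (by positivity)
    have h3 : Real.exp (L / 2 + 1) + 1 ≤ Real.exp (L - L / 160) := by
      have h4 : (1 : ℝ) ≤ Real.exp (L / 2 + 1) := Real.one_le_exp (by positivity)
      have h5 : (2 : ℝ) ≤ Real.exp 1 := by
        have := Real.add_one_le_exp (1 : ℝ); linarith
      calc Real.exp (L / 2 + 1) + 1 ≤ Real.exp 1 * Real.exp (L / 2 + 1) := by nlinarith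
        _ = Real.exp (1 + (L / 2 + 1)) := by rw [← Real.exp_add]
        _ ≤ _ := Real.exp_le_exp.2 (by linarith)
    linarith
  have hH1 : 1 ≤ H := by
    have : (0 : ℝ) < H := lt_of_lt_of_le (Real.exp_pos _) hHlow
    exact_mod_cast this
  have hHr : (1 : ℝ) ≤ H := by exact_mod_cast hH1
  obtain ⟨J, hJ⟩ : ∃ J, J = Q / H + 1 := ⟨_, rfl⟩
  obtain ⟨B, hB⟩ : ∃ B, B = (3 / 4 : ℝ) ^ r * H * (33 * ((kap : ℝ) + 2) / L) := ⟨_, rfl⟩
  have hblock : ∀ j < J, ((bad n (Q + j * H) (Q + j * H + H)).card : ℝ) ≤ B := by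
    intro j hj
    obtain ⟨P, hP⟩ : ∃ P, P = Q + j * H := ⟨_, rfl⟩
    rw [← hP]
    have hjH : j * H ≤ Q := by
      have : j ≤ Q / H := by omega
      calc j * H ≤ Q / H * H := Nat.mul_le_mul_right H this
        _ ≤ Q := Nat.div_mul_le_self Q H
    have hPQ : Q ≤ P := by rw [hP]; omega
    have hP2Q : P ≤ 2 * Q := by rw [hP]; omega
    have hPr : (Q : ℝ) ≤ P := by exact_mod_cast hPQ
    have hPr2 : (P : ℝ) ≤ 2 * Q := by exact_mod_cast hP2Q
    have hP2 : 2 ≤ P := by omega
    have hLP1 : L ≤ Real.log P := by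
      rw [hL]; exact Real.log_le_log (by linarith) hPr
    have hLP2 : Real.log P ≤ L + 1 := by
      have := Real.log_le_log (by linarith) hPr2
      rw [Real.log_mul (by norm_num) (by linarith), ← hL] at this
      linarith
    obtain ⟨uP, huP⟩ : ∃ uP, uP = Nat.log P n := ⟨_, rfl⟩
    have huP1 : uP ≤ u := by
      rw [huP, hu]; exact Nat.log_anti_left (by omega) hPQ
    have huP2 : r + 6 ≤ uP := by
      rw [huP]
      exact hu2.trans (Nat.log_anti_left (by omega) hP2Q)
    have huPr : (uP : ℝ) ≤ u := by exact_mod_cast huP1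
    have huP0 : (6 : ℝ) ≤ uP := by exact_mod_cast (by omega : 6 ≤ uP)
    have hc := count_short (n := n) (P := P) (H := H) (u := uP) (r := r) (m0 := uP - (r + 5))
      (kap := kap) (D := D) hP2 (by rw [huP]; exact Nat.pow_log_le_self P hn0)
      (by rw [huP]; exact Nat.lt_pow_succ_log_self (by omega) n) (by omega) (by omega) hD1
      (hDQ.trans hPQ) hkap hr
      (by
        -- H1 for P
        have hc64 : 64 * (kap : ℝ) * 2 ^ kap ≤ L := by
          have h1 : 64 * (kap : ℝ) * 2 ^ kap * 1 ≤ 64 * (kap : ℝ) * 2 ^ kap * Real.log L :=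
            mul_le_mul_of_nonneg_left H1' (by positivity)
          linarith
        have hl : Real.log (Real.log P) ≤ Real.log L + (Real.log P - L) / L := by
          have h2 := Real.log_le_sub_one_of_pos (div_pos (by linarith : 0 < Real.log P) hLpos)
          rw [Real.log_div (by linarith) hLpos.ne'] at h2
          have h3 : (Real.log P - L) / L = Real.log P / L - 1 := by field_simp
          rw [h3]
          linarith
        have h4 : 64 * (kap : ℝ) * 2 ^ kap * ((Real.log P - L) / L) ≤ Real.log P - L := by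
          rw [mul_div_assoc', div_le_iff₀ hLpos]
          have h5 : 0 ≤ Real.log P - L := by linarith
          nlinarith
        calc 64 * (kap : ℝ) * 2 ^ kap * Real.log (Real.log P)
            ≤ 64 * (kap : ℝ) * 2 ^ kap * (Real.log L + (Real.log P - L) / L) :=
              mul_le_mul_of_nonneg_left hl (by positivity)
          _ = 64 * (kap : ℝ) * 2 ^ kap * Real.log L +
              64 * (kap : ℝ) * 2 ^ kap * ((Real.log P - L) / L) := by ring
          _ ≤ _ := by linarith)
      (H1'.trans (Real.log_le_log hLpos hLP1))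
      (by
        -- H2 for P
        refine le_trans ?_ hLP1
        have h1 : Real.log (16 * ((kap : ℝ) + 2) * uP * (D * D : ℕ)) ≤
            Real.log (16 * ((kap : ℝ) + 2) * u) + 2 * (L / (32 * (kap + 2))) := by
          have h2 : (16 * ((kap : ℝ) + 2) * uP * (D * D : ℕ)) ≤
              (16 * ((kap : ℝ) + 2) * u) * ((D : ℝ) * D) := by
            push_cast
            gcongr
          have h3 := Real.log_le_log (by positivity) h2
          have hD0 : (D : ℝ) ≠ 0 := by positivity
          have h4 : Real.log ((16 * ((kap : ℝ) + 2) * u) * ((D : ℝ) * D)) =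
              Real.log (16 * ((kap : ℝ) + 2) * u) + (Real.log D + Real.log D) := by
            rw [Real.log_mul (by positivity) (mul_ne_zero hD0 hD0), Real.log_mul hD0 hD0]
          rw [h4] at h3
          linarith
        calc 8 * ((kap : ℝ) + 2) * Real.log (16 * ((kap : ℝ) + 2) * uP * (D * D : ℕ))
            ≤ 8 * ((kap : ℝ) + 2) * (Real.log (16 * ((kap : ℝ) + 2) * u) +
              2 * (L / (32 * (kap + 2)))) := mul_le_mul_of_nonneg_left h1 (by positivity)
          _ = 1 / 2 * (16 * ((kap : ℝ) + 2) * Real.log (16 * ((kap : ℝ) + 2) * u)) +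
              L / 2 := by field_simp; ring
          _ ≤ L := by linarith)
      (by
        -- H3
        have hP0 : (0 : ℝ) < P := by linarith
        have h1 : ((P + H : ℕ) : ℝ) = P * (1 + H / P) := by
          push_cast
          field_simp
        rw [h1, mul_pow, mul_comm]
        refine mul_le_mul_of_nonneg_right ?_ (by positivity)
        have h2 : 1 + (H : ℝ) / P ≤ Real.exp ((H : ℝ) / P) := by
          have := Real.add_one_le_exp ((H : ℝ) / P); linarith
        calc (1 + (H : ℝ) / P) ^ (uP + kap) ≤ Real.exp ((H : ℝ) / P) ^ (uP + kap) :=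
              pow_le_pow_left₀ (by positivity) h2 _
          _ = Real.exp (((uP + kap : ℕ) : ℝ) * ((H : ℝ) / P)) := by rw [Real.exp_nat_mul]
          _ ≤ Real.exp (1 / 2) := by
              refine Real.exp_le_exp.2 ?_
              rw [mul_div_assoc', div_le_iff₀ hP0]
              push_cast
              have : (((uP : ℝ) + kap) * H) ≤ (u + kap) * H := by gcongr
              linarith
          _ ≤ 2 := by
              have h5 : Real.exp (1 / 2) ^ 2 ≤ 2 ^ 2 := by
                rw [← Real.exp_nat_mul]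
                have := Real.exp_one_lt_d9
                norm_num
                linarith
              exact le_of_pow_le_pow_left₀ (by norm_num) (by norm_num) h5)
      (by
        refine le_trans (Real.exp_le_exp.2 ?_) hHlow
        linarith)
    refine hc.trans ?_
    rw [hB]
    refine mul_le_mul_of_nonneg_left ?_ (by positivity)
    have h1 : 1 / Real.log (D + 1) ≤ 32 * ((kap : ℝ) + 2) / L := by
      have h2 : 32 * ((kap : ℝ) + 2) / L = 1 / (L / (32 * (kap + 2))) := by
        rw [one_div_div]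
      rw [h2]
      exact one_div_le_one_div_of_le (by positivity) hlogD1
    have h3 : 2 / Real.log P ≤ 2 / L := div_le_div_of_nonneg_left (by norm_num) hLpos hLP1
    have h4 : 33 * ((kap : ℝ) + 2) / L = 32 * ((kap : ℝ) + 2) / L + ((kap : ℝ) + 2) / L := by
      ring
    have h5 : 2 / L ≤ ((kap : ℝ) + 2) / L := by
      gcongr
      linarith
    rw [h4]
    linarith
  have hsum := bad_card_blocks n Q H J hblock
  have hcov : bad n Q (2 * Q) ⊆ bad n Q (Q + J * H) := by
    intro p hp
    rw [bad, mem_filter, mem_Ioc] at hp ⊢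
    refine ⟨⟨hp.1.1, hp.1.2.trans ?_⟩, hp.2⟩
    have : Q ≤ J * H := by
      rw [hJ]
      have := Nat.lt_div_mul_add hH1 (a := Q)
      rw [add_mul, one_mul]
      exact this.le
    omega
  have h1 : ((bad n Q (2 * Q)).card : ℝ) ≤ J * B := by
    refine le_trans ?_ hsum
    exact_mod_cast Finset.card_le_card hcov
  refine h1.trans ?_
  have hJH : (J : ℝ) * H ≤ 2 * Q := by
    have h2 : J * H ≤ Q + H := by
      rw [hJ, add_mul, one_mul]
      exact Nat.add_le_add_right (Nat.div_mul_le_self Q H) H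
    have h3 : H ≤ Q := by rw [hH]; exact Nat.div_le_self _ _
    have h4 : J * H ≤ 2 * Q := by omega
    exact_mod_cast h4
  rw [hB]
  calc (J : ℝ) * ((3 / 4 : ℝ) ^ r * H * (33 * ((kap : ℝ) + 2) / L))
      = (J * H) * ((3 / 4 : ℝ) ^ r * (33 * ((kap : ℝ) + 2) / L)) := by ring
    _ ≤ (2 * Q) * ((3 / 4 : ℝ) ^ r * (33 * ((kap : ℝ) + 2) / L)) :=
        mul_le_mul_of_nonneg_right hJH (by positivity)
    _ = _ := by ring

end Pool.Agent.CBRecip
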