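import Mathlib

/-!
Elementary sums used in the final step.
-/

namespace Pool.Agent.CBRecip

open Finset Nat

theorem geom_sub (t : ℕ) : ∀ M : ℕ, ∑ j ∈ range M, (5 / 6 : ℝ) ^ (j - t) ≤ t + 6 := by
  induction t with
  | zero =>
    intro M
    simp only [Nat.sub_zero]
    have h := geom_sum_eq (by norm_num : (5 / 6 : ℝ) ≠ 1) M
    rw [h]
    have : (0 : ℝ) ≤ (5 / 6) ^ M := by positivity
    push_cast
    rw [div_le_iff_of_neg (by norm_num)]
    linarith
  | succ t ih =>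
    intro M
    rcases M with _ | M
    · simp; positivity
    · rw [Finset.sum_range_succ']
      have h1 : ∀ j ∈ range M, (5 / 6 : ℝ) ^ (j + 1 - (t + 1)) = (5 / 6) ^ (j - t) := by
        intro j _
        congr 1
        omega
      rw [Finset.sum_congr rfl h1, Nat.zero_sub, pow_zero]
      have := ih M
      push_cast
      linarith

theorem sumA_aux : ∀ M : ℕ, ∑ i ∈ Ico (1 : ℕ) (8 ^ M), 1 / (i : ℝ) * (5 / 6) ^ (Nat.log 8 i - 7) ≤
    7 * ∑ j ∈ range M, (5 / 6 : ℝ) ^ (j - 7) := by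
  intro M
  induction M with
  | zero => simp
  | succ M ih =>
    have h8 : 1 ≤ 8 ^ M := Nat.one_le_pow _ _ (by norm_num)
    have h8' : 8 ^ M ≤ 8 ^ (M + 1) := Nat.pow_le_pow_right (by norm_num) (Nat.le_succ M)
    rw [← Finset.sum_Ico_consecutive _ h8 h8', Finset.sum_range_succ, mul_add]
    refine add_le_add ih ?_
    have h1 : ∀ i ∈ Ico ((8 : ℕ) ^ M) (8 ^ (M + 1)),
        1 / (i : ℝ) * (5 / 6) ^ (Nat.log 8 i - 7) ≤ 1 / (8 : ℝ) ^ M * (5 / 6) ^ (M - 7) := by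
      intro i hi
      rw [mem_Ico] at hi
      have h2 : Nat.log 8 i = M := Nat.log_eq_of_pow_le_of_lt_pow hi.1 hi.2
      rw [h2]
      refine mul_le_mul_of_nonneg_right ?_ (by positivity)
      have h3 : (8 : ℝ) ^ M ≤ i := by exact_mod_cast hi.1
      exact one_div_le_one_div_of_le (by positivity) h3
    refine (Finset.sum_le_sum h1).trans ?_
    rw [Finset.sum_const, Nat.card_Ico, nsmul_eq_mul, Nat.cast_sub h8']
    push_cast
    rw [pow_succ]
    have h3 : (0 : ℝ) < 8 ^ M := by positivity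
    refine le_of_eq ?_
    field_simp
    ring

theorem sumA (T : ℕ) : ∑ i ∈ Icc 1 T, 1 / (i : ℝ) * (5 / 6) ^ (Nat.log 8 i - 7) ≤ 91 := by
  have h1 : Icc 1 T ⊆ Ico 1 (8 ^ (T + 1)) := by
    intro i hi
    rw [mem_Icc] at hi
    rw [mem_Ico]
    refine ⟨hi.1, ?_⟩
    have : T + 1 < 8 ^ (T + 1) := Nat.lt_pow_self (by norm_num)
    omega
  have h2 := sumA_aux (T + 1)
  have h3 := geom_sub 7 (T + 1)
  have h4 : ∑ i ∈ Icc 1 T, 1 / (i : ℝ) * (5 / 6) ^ (Nat.log 8 i - 7) ≤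
      ∑ i ∈ Ico (1 : ℕ) (8 ^ (T + 1)), 1 / (i : ℝ) * (5 / 6) ^ (Nat.log 8 i - 7) :=
    Finset.sum_le_sum_of_subset_of_nonneg h1 fun _ _ _ => by positivity
  push_cast at h3
  linarith

theorem seven (w : ℕ) : ((w : ℝ) + 7) * (5 / 6) ^ w ≤ 7 := by
  induction w with
  | zero => simp
  | succ w ih =>
    have h1 : (0 : ℝ) < (5 / 6) ^ w := by positivity
    rw [pow_succ]
    push_cast
    have h2 : ((w : ℝ) + 1 + 7) * 5 / 6 ≤ (w : ℝ) + 7 := by
      have : (0 : ℝ) ≤ w := by positivity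
      linarith
    calc ((w : ℝ) + 1 + 7) * ((5 / 6) ^ w * (5 / 6)) = (((w : ℝ) + 1 + 7) * 5 / 6) * (5 / 6) ^ w := by
          ring
      _ ≤ ((w : ℝ) + 7) * (5 / 6) ^ w := mul_le_mul_of_nonneg_right h2 h1.le
      _ ≤ 7 := ih

theorem seven' (v : ℕ) : ((v : ℝ) + 1) * (5 / 6) ^ (v - 6) ≤ 7 := by
  by_cases h : v ≤ 6
  · rw [Nat.sub_eq_zero_of_le h, pow_zero, mul_one]
    have : (v : ℝ) ≤ 6 := by exact_mod_cast h
    linarith
  · push Not at h
    obtain ⟨w, rfl⟩ : ∃ w, v = w + 6 := ⟨v - 6, by omega⟩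
    rw [Nat.add_sub_cancel]
    have := seven w
    push_cast
    have e1 : (w : ℝ) + 6 + 1 = w + 7 := by ring
    rw [e1]
    exact this

theorem sumB (T : ℕ) : ∑ i ∈ Icc 1 T, 1 / (i : ℝ) * (5 / 6) ^ (T / (i + 1) - 6) ≤ 14 := by
  have h1 : ∀ i ∈ Icc 1 T, 1 / (i : ℝ) * (5 / 6) ^ (T / (i + 1) - 6) ≤ 14 / T := by
    intro i hi
    rw [mem_Icc] at hi
    have hi0 : (1 : ℝ) ≤ i := by exact_mod_cast hi.1
    have hT0 : (0 : ℝ) < T := by exact_mod_cast (by omega : 0 < T)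
    have h2 := seven' (T / (i + 1))
    have h3 : (T : ℝ) ≤ (((T / (i + 1) : ℕ) : ℝ) + 1) * (i + 1) := by
      have := Nat.lt_div_mul_add (Nat.succ_pos i) (a := T)
      have h3 : T ≤ (T / (i + 1) + 1) * (i + 1) := by rw [add_mul, one_mul]; exact this.le
      exact_mod_cast h3
    have hx : (0 : ℝ) < (5 / 6) ^ (T / (i + 1) - 6) := by positivity
    rw [one_div, inv_mul_le_iff₀ (by linarith), mul_div_assoc', le_div_iff₀ hT0]
    calc (5 / 6 : ℝ) ^ (T / (i + 1) - 6) * T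
        ≤ (5 / 6 : ℝ) ^ (T / (i + 1) - 6) * ((((T / (i + 1) : ℕ) : ℝ) + 1) * (i + 1)) :=
          mul_le_mul_of_nonneg_left h3 hx.le
      _ = ((((T / (i + 1) : ℕ) : ℝ) + 1) * (5 / 6 : ℝ) ^ (T / (i + 1) - 6)) * (i + 1) := by ring
      _ ≤ 7 * (i + 1) := mul_le_mul_of_nonneg_right h2 (by linarith)
      _ ≤ i * 14 := by linarith
  refine (Finset.sum_le_sum h1).trans ?_
  rw [Finset.sum_const, Nat.card_Icc, Nat.add_sub_cancel, nsmul_eq_mul]
  by_cases hT : T = 0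
  · subst hT; simp
  · have : (0 : ℝ) < T := by exact_mod_cast Nat.pos_of_ne_zero hT
    rw [mul_div_assoc', div_le_iff₀ this]
    linarith

theorem sum_div {lam : ℕ} (hlam : 1 ≤ lam) (g : ℕ → ℝ) (M : ℕ) :
    ∑ i ∈ range (M * lam), g (i / lam) = lam * ∑ q ∈ range M, g q := by
  induction M with
  | zero => simp
  | succ M ih =>
    rw [add_mul, one_mul, Finset.sum_range_add, ih, Finset.sum_range_succ, mul_add]
    congr 1
    have : ∀ x ∈ range lam, g ((M * lam + x) / lam) = g M := by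
      intro x hx
      rw [mem_range] at hx
      congr 1
      rw [mul_comm, Nat.mul_add_div (by omega), Nat.div_eq_of_lt hx, add_zero]
    rw [Finset.sum_congr rfl this, Finset.sum_const, card_range, nsmul_eq_mul]

theorem sumC {lam : ℕ} (hlam : 1 ≤ lam) (T : ℕ) :
    ∑ i ∈ Icc lam T, 1 / (i : ℝ) * (5 / 6) ^ (i / lam - 9) ≤ 15 := by
  have hl : (1 : ℝ) ≤ lam := by exact_mod_cast hlam
  have h1 : ∀ i ∈ Icc lam T, 1 / (i : ℝ) * (5 / 6) ^ (i / lam - 9) ≤
      1 / (lam : ℝ) * (5 / 6) ^ (i / lam - 9) := by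
    intro i hi
    rw [mem_Icc] at hi
    refine mul_le_mul_of_nonneg_right ?_ (by positivity)
    exact one_div_le_one_div_of_le (by linarith) (by exact_mod_cast hi.1)
  refine (Finset.sum_le_sum h1).trans ?_
  rw [← Finset.mul_sum]
  have h2 : ∑ i ∈ Icc lam T, (5 / 6 : ℝ) ^ (i / lam - 9) ≤
      ∑ i ∈ range ((T + 1) * lam), (5 / 6 : ℝ) ^ (i / lam - 9) := by
    refine Finset.sum_le_sum_of_subset_of_nonneg ?_ fun _ _ _ => by positivity
    intro i hi
    rw [mem_Icc] at hi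
    rw [mem_range]
    have : (T + 1) * 1 ≤ (T + 1) * lam := Nat.mul_le_mul_left _ hlam
    omega
  rw [sum_div hlam (fun q => (5 / 6 : ℝ) ^ (q - 9))] at h2
  have h3 := geom_sub 9 (T + 1)
  rw [one_div, inv_mul_le_iff₀ (by linarith)]
  refine h2.trans ?_
  push_cast at h3
  rw [mul_comm (lam : ℝ) 15]
  nlinarith

/-- `(r + 9) (3/4)^r ≤ 9 (5/6)^r`. -/
theorem nine (r : ℕ) : ((r : ℝ) + 9) * (3 / 4) ^ r ≤ 9 * (5 / 6) ^ r := by
  induction r with
  | zero => simp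
  | succ r ih =>
    have h1 : (0 : ℝ) < (3 / 4) ^ r := by positivity
    rw [pow_succ, pow_succ]
    push_cast
    have hr : (0 : ℝ) ≤ r := by positivity
    calc ((r : ℝ) + 1 + 9) * ((3 / 4) ^ r * (3 / 4))
        = (((r : ℝ) + 1 + 9) * (3 / 4)) * (3 / 4) ^ r := by ring
      _ ≤ ((5 / 6) * ((r : ℝ) + 9)) * (3 / 4) ^ r := by
          refine mul_le_mul_of_nonneg_right ?_ h1.le
          linarith
      _ = (5 / 6) * (((r : ℝ) + 9) * (3 / 4) ^ r) := by ring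
      _ ≤ (5 / 6) * (9 * (5 / 6) ^ r) := by linarith
      _ = _ := by ring

end Pool.Agent.CBRecip
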