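import Mathlib
import Pool.Agent.CBRecip.Dyadic
import Pool.Agent.CBRecip.Sums
import Pool.Agent.ExpSum.Mertens

/-!
`∑_{p < n, p ∤ C(2n,n)} 1/p ≤ log log log n + O(1)`.
-/

namespace Pool.Agent.CBRecip

open Finset Nat Pool.Agent.ExpSum Filter

/-- The part of the sum over `(2^i, 2^(i+1)]`. -/
noncomputable def Sd (n i : ℕ) : ℝ := ∑ p ∈ bad n (2 ^ i) (2 * 2 ^ i), 1 / (p : ℝ)

theorem Sd_le_card (n i : ℕ) : Sd n i ≤ ((bad n (2 ^ i) (2 * 2 ^ i)).card : ℝ) / 2 ^ i := by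
  rw [Sd, div_eq_mul_one_div, ← nsmul_eq_mul]
  refine Finset.sum_le_card_nsmul _ _ _ fun p hp => ?_
  rw [bad, mem_filter, mem_Ioc] at hp
  have h1 : (2 : ℝ) ^ i ≤ p := by exact_mod_cast hp.1.1.le
  exact one_div_le_one_div_of_le (by positivity) h1

theorem cheb (n : ℕ) {i : ℕ} (hi : 1 ≤ i) : Sd n i ≤ 4 / i := by
  refine (Sd_le_card n i).trans ?_
  have hir : (1 : ℝ) ≤ i := by exact_mod_cast hi
  have hl2 : 0 < Real.log 2 := Real.log_pos (by norm_num)
  have h1 : ((bad n (2 ^ i) (2 * 2 ^ i)).card : ℝ) * (i * Real.log 2) ≤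
      Real.log 4 * (2 * 2 ^ i) := by
    have h2 := Chebyshev.theta_le_log4_mul_x (x := ((2 * 2 ^ i : ℕ) : ℝ)) (by positivity)
    rw [Chebyshev.theta, Nat.floor_natCast] at h2
    push_cast at h2
    refine le_trans ?_ h2
    rw [← nsmul_eq_mul]
    have h3 : ∀ p ∈ bad n (2 ^ i) (2 * 2 ^ i), (i : ℝ) * Real.log 2 ≤ Real.log p := by
      intro p hp
      rw [bad, mem_filter, mem_Ioc] at hp
      have h1 : (2 : ℝ) ^ i ≤ p := by exact_mod_cast hp.1.1.le
      have := Real.log_le_log (by positivity) h1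
      rwa [Real.log_pow] at this
    refine (Finset.card_nsmul_le_sum _ _ _ h3).trans ?_
    refine Finset.sum_le_sum_of_subset_of_nonneg ?_ ?_
    · intro p hp
      rw [bad, mem_filter, mem_Ioc] at hp
      rw [mem_filter, mem_Ioc]
      exact ⟨⟨hp.2.1.pos, hp.1.2⟩, hp.2.1⟩
    · intro p hp _
      rw [mem_filter] at hp
      exact Real.log_nonneg (by exact_mod_cast hp.2.one_lt.le)
  have h4 : Real.log 4 = 2 * Real.log 2 := by
    rw [show (4 : ℝ) = 2 ^ 2 by norm_num, Real.log_pow]; norm_num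
  rw [h4] at h1
  rw [div_le_div_iff₀ (by positivity) (by linarith)]
  have h5 : ((bad n (2 ^ i) (2 * 2 ^ i)).card : ℝ) * i * Real.log 2 ≤
      4 * 2 ^ i * Real.log 2 := by linarith
  exact le_of_mul_le_mul_right h5 hl2

theorem thresholds : ∃ i1 : ℕ, 4 ≤ i1 ∧ ∀ i : ℕ, i1 ≤ i →
    64 * (i : ℝ) ^ ((2 : ℝ) / 3) * Real.log i ≤ i * Real.log 2 ∧
    256 * (i : ℝ) ^ ((2 : ℝ) / 3) ≤ 1 / 2 * (i * Real.log 2) := by
  have h1 : ∀ᶠ x : ℝ in atTop, ‖Real.log x‖ ≤ (Real.log 2 / 64) * ‖x ^ ((1 : ℝ) / 3)‖ :=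
    (isLittleO_log_rpow_atTop (by norm_num : (0 : ℝ) < 1 / 3)).bound
      (div_pos (Real.log_pos (by norm_num)) (by norm_num))
  have h2 : ∀ᶠ x : ℝ in atTop, 512 / Real.log 2 ≤ x ^ ((1 : ℝ) / 3) :=
    (tendsto_rpow_atTop (by norm_num : (0 : ℝ) < 1 / 3)).eventually_ge_atTop _
  have h3 := tendsto_natCast_atTop_atTop (R := ℝ) |>.eventually (h1.and h2)
  obtain ⟨i0, hi0⟩ := eventually_atTop.1 h3
  refine ⟨max i0 4, le_max_right _ _, fun i hi => ?_⟩
  obtain ⟨a1, a2⟩ := hi0 i ((le_max_left _ _).trans hi)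
  have hir : (4 : ℝ) ≤ i := by exact_mod_cast (le_max_right _ _).trans hi
  have hi0 : (0 : ℝ) < i := by linarith
  have hl2 : 0 < Real.log 2 := Real.log_pos (by norm_num)
  rw [Real.norm_eq_abs, Real.norm_eq_abs, abs_of_nonneg (Real.log_nonneg (by linarith)),
    abs_of_nonneg (by positivity)] at a1
  have e1 : (i : ℝ) ^ ((2 : ℝ) / 3) * (i : ℝ) ^ ((1 : ℝ) / 3) = i := by
    rw [← Real.rpow_add hi0]
    norm_num
  have hp : (0 : ℝ) < (i : ℝ) ^ ((2 : ℝ) / 3) := by positivity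
  constructor
  · calc 64 * (i : ℝ) ^ ((2 : ℝ) / 3) * Real.log i
        ≤ 64 * (i : ℝ) ^ ((2 : ℝ) / 3) * (Real.log 2 / 64 * (i : ℝ) ^ ((1 : ℝ) / 3)) :=
          mul_le_mul_of_nonneg_left a1 (by positivity)
      _ = ((i : ℝ) ^ ((2 : ℝ) / 3) * (i : ℝ) ^ ((1 : ℝ) / 3)) * Real.log 2 := by ring
      _ = _ := by rw [e1]
  · rw [div_le_iff₀ hl2] at a2
    calc 256 * (i : ℝ) ^ ((2 : ℝ) / 3) = (i : ℝ) ^ ((2 : ℝ) / 3) * (1 / 2 * 512) := by ring
      _ ≤ (i : ℝ) ^ ((2 : ℝ) / 3) * (1 / 2 * ((i : ℝ) ^ ((1 : ℝ) / 3) * Real.log 2)) := by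
          gcongr
      _ = 1 / 2 * (((i : ℝ) ^ ((2 : ℝ) / 3) * (i : ℝ) ^ ((1 : ℝ) / 3)) * Real.log 2) := by ring
      _ = _ := by rw [e1]

theorem four_pow_le {kap i : ℕ} (h : 8 ^ kap ≤ i) : (4 : ℝ) ^ kap ≤ (i : ℝ) ^ ((2 : ℝ) / 3) := by
  have hi : (8 : ℝ) ^ kap ≤ i := by exact_mod_cast h
  have e1 : (4 : ℝ) ^ kap = ((8 : ℝ) ^ kap) ^ ((2 : ℝ) / 3) := by
    rw [← Real.rpow_natCast, ← Real.rpow_natCast, ← Real.rpow_mul (by norm_num),
      mul_comm (kap : ℝ), Real.rpow_mul (by norm_num)]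
    congr 1
    rw [show (8 : ℝ) = 2 ^ (3 : ℝ) by norm_num, ← Real.rpow_mul (by norm_num)]
    norm_num
  rw [e1]
  exact Real.rpow_le_rpow (by positivity) hi (by norm_num)

theorem main_i : ∃ i1 : ℕ, 4 ≤ i1 ∧ ∀ i : ℕ, i1 ≤ i → ∀ n r T : ℕ, T = Nat.log 2 n → 1 ≤ r →
    8 ^ (r + 7) ≤ i → r + 6 ≤ T / (i + 1) → (r + 9) * (100 * (Nat.log 2 T + 1)) ≤ i →
    Sd n i ≤ 864 * (1 / (i : ℝ) * (5 / 6) ^ r) := by
  obtain ⟨i1, hi4, hi1⟩ := thresholds
  refine ⟨i1, hi4, fun i hi n r T hT hr h8 hb hc => ?_⟩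
  obtain ⟨t1, t2⟩ := hi1 i hi
  have hir : (4 : ℝ) ≤ i := by exact_mod_cast hi4.trans hi
  have hl2 : 0 < Real.log 2 := Real.log_pos (by norm_num)
  have hl2a := Real.log_two_gt_d9
  have hl2b := Real.log_two_lt_d9
  have hn0 : n ≠ 0 := by
    rintro rfl
    rw [Nat.log_zero_right] at hT
    subst hT
    simp at hb
  have hQ : 2 ≤ 2 ^ i := by
    calc 2 = 2 ^ 1 := by norm_num
      _ ≤ 2 ^ i := Nat.pow_le_pow_right (by norm_num) (by omega)
  obtain ⟨kap, hkap⟩ : ∃ kap, kap = r + 7 := ⟨_, rfl⟩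
  rw [← hkap] at h8
  have h4 := four_pow_le h8
  have hL : Real.log ((2 ^ i : ℕ) : ℝ) = i * Real.log 2 := by
    push_cast
    rw [Real.log_pow]
  have hx0 : (0 : ℝ) < (i : ℝ) ^ ((2 : ℝ) / 3) := by positivity
  have hkr : (8 : ℝ) ≤ kap := by exact_mod_cast (by omega : 8 ≤ kap)
  have h24 : (2 : ℝ) ^ kap * 2 ^ kap = 4 ^ kap := by rw [← mul_pow]; norm_num
  have hk2 : (kap : ℝ) + 2 ≤ 2 ^ kap := by
    have h5 : kap + 2 ≤ 2 ^ kap := by
      obtain ⟨j, hj⟩ : ∃ j, kap = j + 2 := ⟨kap - 2, by omega⟩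
      rw [hj, pow_add]
      have : j + 1 ≤ 2 ^ j := Nat.lt_two_pow_self
      omega
    exact_mod_cast h5
  have hT0 : 1 ≤ T := by
    by_contra hcon
    have : T = 0 := by omega
    subst this
    simp at hb
  have hTr : (1 : ℝ) ≤ T := by exact_mod_cast hT0
  have hlogT : Real.log T ≤ ((Nat.log 2 T : ℝ) + 1) * Real.log 2 := by
    have h5 : T < 2 ^ (Nat.log 2 T + 1) := Nat.lt_pow_succ_log_self (by norm_num) T
    have h6 : (T : ℝ) ≤ 2 ^ (Nat.log 2 T + 1) := by exact_mod_cast h5.le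
    have h7 := Real.log_le_log (by linarith) h6
    rw [Real.log_pow] at h7
    push_cast at h7
    exact h7
  have hu2 : T / (i + 1) ≤ Nat.log (2 * 2 ^ i) n := by
    apply Nat.le_log_of_pow_le (by omega)
    calc (2 * 2 ^ i) ^ (T / (i + 1)) = 2 ^ ((i + 1) * (T / (i + 1))) := by
          rw [pow_mul, pow_succ]
          ring
      _ ≤ 2 ^ T := Nat.pow_le_pow_right (by norm_num) (Nat.mul_div_le T (i + 1))
      _ ≤ n := by rw [hT]; exact Nat.pow_log_le_self 2 hn0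
  have huT : Nat.log (2 ^ i) n ≤ T := by
    rw [hT]; exact Nat.log_anti_left (by norm_num) hQ
  have hu1 : 1 ≤ Nat.log (2 ^ i) n := by
    have : Nat.log (2 * 2 ^ i) n ≤ Nat.log (2 ^ i) n := Nat.log_anti_left (by omega) (by omega)
    omega
  obtain ⟨u, hu⟩ : ∃ u, u = Nat.log (2 ^ i) n := ⟨_, rfl⟩
  rw [← hu] at huT hu1
  have hur : (1 : ℝ) ≤ u := by exact_mod_cast hu1
  have hd := dyadic (n := n) (Q := 2 ^ i) (r := r) (kap := kap) (u := u) hQ hr hkap hu
    (hb.trans hu2)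
    (by
      rw [hL]
      have hlog : Real.log (i * Real.log 2) ≤ Real.log i :=
        Real.log_le_log (by positivity) (by nlinarith)
      have hlogi : 0 ≤ Real.log i := Real.log_nonneg (by linarith)
      calc 64 * (kap : ℝ) * 2 ^ kap * Real.log (i * Real.log 2)
          ≤ 64 * (kap : ℝ) * 2 ^ kap * Real.log i :=
            mul_le_mul_of_nonneg_left hlog (by positivity)
        _ ≤ 64 * (2 : ℝ) ^ kap * 2 ^ kap * Real.log i := by
            have : (kap : ℝ) ≤ 2 ^ kap := by linarith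
            gcongr
        _ = 64 * (4 : ℝ) ^ kap * Real.log i := by rw [mul_assoc 64, h24]
        _ ≤ 64 * (i : ℝ) ^ ((2 : ℝ) / 3) * Real.log i := by gcongr
        _ ≤ _ := t1)
    (by
      rw [hL, Real.le_log_iff_exp_le (by positivity)]
      have := Real.exp_one_lt_d9
      nlinarith)
    (by
      rw [hL]
      have h5 : Real.log (16 * ((kap : ℝ) + 2) * u) =
          Real.log (16 * ((kap : ℝ) + 2)) + Real.log u := Real.log_mul (by positivity) (by positivity)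
      have h6 : Real.log (16 * ((kap : ℝ) + 2)) ≤ 16 * ((kap : ℝ) + 2) :=
        (Real.log_le_sub_one_of_pos (by positivity)).trans (by linarith)
      have h7 : Real.log u ≤ ((Nat.log 2 T : ℝ) + 1) * Real.log 2 :=
        (Real.log_le_log (by linarith) (by exact_mod_cast huT)).trans hlogT
      have h8 : ((kap : ℝ) + 2) * ((Nat.log 2 T : ℝ) + 1) ≤ i / 100 := by
        have h9 : (kap + 2) * (100 * (Nat.log 2 T + 1)) ≤ i := by
          rw [hkap]; exact hc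
        have h10 : ((kap : ℝ) + 2) * (100 * ((Nat.log 2 T : ℝ) + 1)) ≤ i := by
          exact_mod_cast h9
        linarith
      have h11 : ((kap : ℝ) + 2) * ((kap : ℝ) + 2) ≤ (i : ℝ) ^ ((2 : ℝ) / 3) := by
        refine le_trans ?_ h4
        rw [← h24]
        gcongr
      calc 16 * ((kap : ℝ) + 2) * Real.log (16 * ((kap : ℝ) + 2) * u)
          = 16 * ((kap : ℝ) + 2) * (Real.log (16 * ((kap : ℝ) + 2)) + Real.log u) := by
            rw [h5]
        _ ≤ 16 * ((kap : ℝ) + 2) * (16 * ((kap : ℝ) + 2) +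
            ((Nat.log 2 T : ℝ) + 1) * Real.log 2) := by gcongr
        _ = 256 * (((kap : ℝ) + 2) * ((kap : ℝ) + 2)) +
            16 * (((kap : ℝ) + 2) * ((Nat.log 2 T : ℝ) + 1)) * Real.log 2 := by ring
        _ ≤ 256 * (i : ℝ) ^ ((2 : ℝ) / 3) + 16 * (i / 100) * Real.log 2 := by gcongr
        _ ≤ i * Real.log 2 := by nlinarith)
  refine (Sd_le_card n i).trans ?_
  rw [div_le_iff₀ (by positivity)]
  refine hd.trans ?_
  rw [hL]
  have h9 := nine r
  have hk9 : (kap : ℝ) + 2 = r + 9 := by rw [hkap]; push_cast; ring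
  rw [hk9, div_le_iff₀ (by positivity)]
  push_cast
  have hi0 : (i : ℝ) ≠ 0 := by linarith
  have h56 : (0 : ℝ) < (5 / 6) ^ r := by positivity
  have h2i : (0 : ℝ) < 2 ^ i := by positivity
  calc 66 * ((r : ℝ) + 9) * (3 / 4) ^ r * 2 ^ i
      = 66 * (((r : ℝ) + 9) * (3 / 4) ^ r) * 2 ^ i := by ring
    _ ≤ 66 * (9 * (5 / 6) ^ r) * 2 ^ i := by gcongr
    _ = 594 * ((5 / 6) ^ r * 2 ^ i) := by ring
    _ ≤ 864 * Real.log 2 * ((5 / 6) ^ r * 2 ^ i) := by
        refine mul_le_mul_of_nonneg_right ?_ (by positivity)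
        linarith
    _ = 864 * (1 / (i : ℝ) * (5 / 6) ^ r) * 2 ^ i * (i * Real.log 2) := by
        field_simp

theorem Sd_bound : ∃ i1 : ℕ, 4 ≤ i1 ∧ ∀ i : ℕ, i1 ≤ i → ∀ n T lam : ℕ, T = Nat.log 2 n →
    lam = 100 * (Nat.log 2 T + 1) →
    Sd n i ≤ 864 * (1 / (i : ℝ) * (5 / 6) ^ (Nat.log 8 i - 7) +
      1 / (i : ℝ) * (5 / 6) ^ (T / (i + 1) - 6) + 1 / (i : ℝ) * (5 / 6) ^ (i / lam - 9)) := by
  obtain ⟨i1, hi4, hi1⟩ := main_i
  refine ⟨i1, hi4, fun i hi n T lam hT hlam => ?_⟩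
  have hir : (4 : ℝ) ≤ i := by exact_mod_cast hi4.trans hi
  have hmin : ∀ a b c : ℕ, (5 / 6 : ℝ) ^ (min a (min b c)) ≤
      (5 / 6) ^ a + (5 / 6) ^ b + (5 / 6) ^ c := by
    intro a b c
    have h1 : (0 : ℝ) < (5 / 6) ^ a := by positivity
    have h2 : (0 : ℝ) < (5 / 6) ^ b := by positivity
    have h3 : (0 : ℝ) < (5 / 6) ^ c := by positivity
    rcases min_choice a (min b c) with h | h
    · rw [h]; linarith
    · rw [h]
      rcases min_choice b c with h' | h'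
      · rw [h']; linarith
      · rw [h']; linarith
  obtain ⟨r, hr⟩ : ∃ r, r = min (Nat.log 8 i - 7) (min (T / (i + 1) - 6) (i / lam - 9)) :=
    ⟨_, rfl⟩
  have h1 : Sd n i ≤ 864 * (1 / (i : ℝ) * (5 / 6) ^ r) := by
    by_cases hr1 : 1 ≤ r
    · have ha : r ≤ Nat.log 8 i - 7 := hr ▸ min_le_left _ _
      have hb : r ≤ T / (i + 1) - 6 := hr ▸ (min_le_right _ _).trans (min_le_left _ _)
      have hc : r ≤ i / lam - 9 := hr ▸ (min_le_right _ _).trans (min_le_right _ _)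
      refine hi1 i hi n r T hT hr1 ?_ (by omega) ?_
      · have : r + 7 ≤ Nat.log 8 i := by omega
        exact Nat.pow_le_of_le_log (by omega) this
      · rw [← hlam]
        have h2 : r + 9 ≤ i / lam := by omega
        exact (Nat.mul_le_mul_right lam h2).trans (Nat.div_mul_le_self i lam)
    · have : r = 0 := by omega
      rw [this, pow_zero, mul_one]
      refine (cheb n (by omega)).trans ?_
      rw [mul_one_div]
      gcongr
      norm_num
  refine h1.trans ?_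
  have h2 := hmin (Nat.log 8 i - 7) (T / (i + 1) - 6) (i / lam - 9)
  rw [← hr] at h2
  have h3 : 0 ≤ 1 / (i : ℝ) := by positivity
  have h4 := mul_le_mul_of_nonneg_left h2 h3
  linarith

theorem sum_split {n T i0 : ℕ} (hT : T = Nat.log 2 n) :
    ∑ p ∈ (range n).filter (fun p => p.Prime ∧ ¬ p ∣ centralBinom n), (1 : ℝ) / (p : ℝ) ≤
      mP (2 ^ i0) + ∑ i ∈ Icc i0 T, Sd n i := by
  classical
  have hsub : (range n).filter (fun p => p.Prime ∧ ¬ p ∣ centralBinom n) ⊆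
      (Ioc 0 (2 ^ i0)).filter Nat.Prime ∪ (Icc i0 T).biUnion (fun i => bad n (2 ^ i) (2 * 2 ^ i)) := by
    intro p hp
    rw [mem_filter, mem_range] at hp
    rw [mem_union]
    by_cases h : p ≤ 2 ^ i0
    · left
      rw [mem_filter, mem_Ioc]
      exact ⟨⟨hp.2.1.pos, h⟩, hp.2.1⟩
    · right
      push Not at h
      rw [mem_biUnion]
      -- choose `i` with `2^i < p ≤ 2^(i+1)`
      have hp2 : 2 ≤ p := hp.2.1.two_le
      obtain ⟨i, hi⟩ : ∃ i, i = Nat.log 2 (p - 1) := ⟨_, rfl⟩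
      have h1 : 2 ^ i ≤ p - 1 := by rw [hi]; exact Nat.pow_log_le_self 2 (by omega)
      have h2 : p - 1 < 2 ^ (i + 1) := by rw [hi]; exact Nat.lt_pow_succ_log_self (by norm_num) _
      refine ⟨i, ?_, ?_⟩
      · rw [mem_Icc]
        constructor
        · rw [hi]
          exact Nat.le_log_of_pow_le (by norm_num) (by omega)
        · rw [hT, hi]
          exact Nat.log_mono_right (by omega)
      · rw [bad, mem_filter, mem_Ioc]
        rw [pow_succ] at h2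
        exact ⟨⟨by omega, by omega⟩, hp.2⟩
  calc ∑ p ∈ (range n).filter (fun p => p.Prime ∧ ¬ p ∣ centralBinom n), (1 : ℝ) / (p : ℝ)
      ≤ ∑ p ∈ (Ioc 0 (2 ^ i0)).filter Nat.Prime ∪
          (Icc i0 T).biUnion (fun i => bad n (2 ^ i) (2 * 2 ^ i)), (1 : ℝ) / (p : ℝ) :=
        Finset.sum_le_sum_of_subset_of_nonneg hsub fun _ _ _ => by positivity
    _ ≤ ∑ p ∈ (Ioc 0 (2 ^ i0)).filter Nat.Prime, (1 : ℝ) / (p : ℝ) +
          ∑ p ∈ (Icc i0 T).biUnion (fun i => bad n (2 ^ i) (2 * 2 ^ i)), (1 : ℝ) / (p : ℝ) := by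
        rw [← Finset.sum_union_inter]
        have : 0 ≤ ∑ p ∈ (Ioc 0 (2 ^ i0)).filter Nat.Prime ∩
          (Icc i0 T).biUnion (fun i => bad n (2 ^ i) (2 * 2 ^ i)), (1 : ℝ) / (p : ℝ) :=
          Finset.sum_nonneg fun _ _ => by positivity
        linarith
    _ ≤ _ := by
        refine add_le_add le_rfl ?_
        rw [Finset.sum_biUnion]
        · exact le_rfl
        · intro i _ j _ hij
          change Disjoint (bad n (2 ^ i) (2 * 2 ^ i)) (bad n (2 ^ j) (2 * 2 ^ j))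
          rw [Finset.disjoint_left]
          intro p hp hp'
          rw [bad, mem_filter, mem_Ioc] at hp hp'
          have h1 : i < j + 1 := by
            have : 2 ^ i < 2 ^ (j + 1) := by rw [pow_succ]; omega
            exact (Nat.pow_lt_pow_iff_right (by norm_num)).1 this
          have h2 : j < i + 1 := by
            have : 2 ^ j < 2 ^ (i + 1) := by rw [pow_succ]; omega
            exact (Nat.pow_lt_pow_iff_right (by norm_num)).1 this
          omega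

/-- The sum over the large dyadic blocks is bounded. -/
theorem sum_large {i1 : ℕ} (hi4 : 4 ≤ i1) (hi1 : ∀ i : ℕ, i1 ≤ i → ∀ n T lam : ℕ,
    T = Nat.log 2 n → lam = 100 * (Nat.log 2 T + 1) →
    Sd n i ≤ 864 * (1 / (i : ℝ) * (5 / 6) ^ (Nat.log 8 i - 7) +
      1 / (i : ℝ) * (5 / 6) ^ (T / (i + 1) - 6) + 1 / (i : ℝ) * (5 / 6) ^ (i / lam - 9)))
    {n T lam i0 : ℕ} (hT : T = Nat.log 2 n) (hlam : lam = 100 * (Nat.log 2 T + 1))
    (hi0 : i0 = max lam i1) : ∑ i ∈ Icc i0 T, Sd n i ≤ 864 * (91 + 14 + 15) := by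
  have hlam1 : 1 ≤ lam := by omega
  have hi01 : i1 ≤ i0 := by rw [hi0]; exact le_max_right _ _
  have hi0l : lam ≤ i0 := by rw [hi0]; exact le_max_left _ _
  have h1 : ∑ i ∈ Icc i0 T, Sd n i ≤ ∑ i ∈ Icc i0 T, 864 *
      (1 / (i : ℝ) * (5 / 6) ^ (Nat.log 8 i - 7) +
      1 / (i : ℝ) * (5 / 6) ^ (T / (i + 1) - 6) + 1 / (i : ℝ) * (5 / 6) ^ (i / lam - 9)) :=
    Finset.sum_le_sum fun i hi => hi1 i (hi01.trans (mem_Icc.1 hi).1) n T lam hT hlam
  refine h1.trans ?_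
  rw [← Finset.mul_sum, Finset.sum_add_distrib, Finset.sum_add_distrib]
  have hA : ∑ i ∈ Icc i0 T, 1 / (i : ℝ) * (5 / 6) ^ (Nat.log 8 i - 7) ≤ 91 := by
    refine le_trans ?_ (sumA T)
    refine Finset.sum_le_sum_of_subset_of_nonneg ?_ fun _ _ _ => by positivity
    exact Finset.Icc_subset_Icc_left (by omega)
  have hB : ∑ i ∈ Icc i0 T, 1 / (i : ℝ) * (5 / 6) ^ (T / (i + 1) - 6) ≤ 14 := by
    refine le_trans ?_ (sumB T)
    refine Finset.sum_le_sum_of_subset_of_nonneg ?_ fun _ _ _ => by positivity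
    exact Finset.Icc_subset_Icc_left (by omega)
  have hC : ∑ i ∈ Icc i0 T, 1 / (i : ℝ) * (5 / 6) ^ (i / lam - 9) ≤ 15 := by
    refine le_trans ?_ (sumC hlam1 T)
    refine Finset.sum_le_sum_of_subset_of_nonneg ?_ fun _ _ _ => by positivity
    exact Finset.Icc_subset_Icc_left hi0l
  linarith

theorem loglog_ge {n : ℕ} (hn : 16 ≤ n) : 2.77 ≤ Real.log n ∧ 1 ≤ Real.log (Real.log n) := by
  have hnr : (16 : ℝ) ≤ n := by exact_mod_cast hn
  have hl2a := Real.log_two_gt_d9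
  have hlogn : 2.77 ≤ Real.log n := by
    have h1 := Real.log_le_log (by norm_num) hnr
    have h2 : Real.log 16 = 4 * Real.log 2 := by
      rw [show (16 : ℝ) = 2 ^ 4 by norm_num, Real.log_pow]; norm_num
    linarith
  refine ⟨hlogn, ?_⟩
  rw [Real.le_log_iff_exp_le (by linarith)]
  have := Real.exp_one_lt_d9
  linarith

theorem i0_le {n T lam i0 i1 : ℕ} (hn : 16 ≤ n) (hi4 : 4 ≤ i1) (hT : T = Nat.log 2 n)
    (hlam : lam = 100 * (Nat.log 2 T + 1)) (hi0 : i0 = max lam i1) :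
    (i0 : ℝ) ≤ (1 + i1) * (450 * Real.log (Real.log n)) := by
  obtain ⟨hlogn, hloglog⟩ := loglog_ge hn
  have hlam1 : 1 ≤ lam := by omega
  have hl2a := Real.log_two_gt_d9
  have hl2b := Real.log_two_lt_d9
  have hT4 : 4 ≤ T := by
    rw [hT]
    exact Nat.le_log_of_pow_le (by norm_num) (by norm_num; exact hn)
  have hTr : (4 : ℝ) ≤ T := by exact_mod_cast hT4
  have hTn : (T : ℝ) * Real.log 2 ≤ Real.log n := by
    have h1 : 2 ^ T ≤ n := by rw [hT]; exact Nat.pow_log_le_self 2 (by omega)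
    have h2 : (2 : ℝ) ^ T ≤ n := by exact_mod_cast h1
    have h3 := Real.log_le_log (by positivity) h2
    rwa [Real.log_pow] at h3
  have hlogT : Real.log T ≤ Real.log (Real.log n) + 1 / 2 := by
    have h1 : (T : ℝ) ≤ Real.log n * Real.exp (1 / 2) := by
      have h2 : (1.5 : ℝ) ≤ Real.exp (1 / 2) := by
        have := Real.add_one_le_exp (1 / 2 : ℝ); linarith
      nlinarith
    have h3 := Real.log_le_log (by linarith) h1
    rw [Real.log_mul (by linarith) (Real.exp_pos _).ne', Real.log_exp] at h3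
    exact h3
  have hlogT2 : (Nat.log 2 T : ℝ) * Real.log 2 ≤ Real.log T := by
    have h1 : 2 ^ (Nat.log 2 T) ≤ T := Nat.pow_log_le_self 2 (by omega)
    have h2 : (2 : ℝ) ^ (Nat.log 2 T) ≤ T := by exact_mod_cast h1
    have h3 := Real.log_le_log (by positivity) h2
    rwa [Real.log_pow] at h3
  have hlamr : (lam : ℝ) ≤ 450 * (Real.log (Real.log n)) := by
    rw [hlam]
    push_cast
    nlinarith
  have hlamr1 : (1 : ℝ) ≤ lam := by exact_mod_cast hlam1
  have hi0r : (i0 : ℝ) ≤ (1 + i1) * lam := by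
    rw [hi0]
    have hi1r : (0 : ℝ) ≤ i1 := Nat.cast_nonneg i1
    push_cast
    refine max_le ?_ ?_ <;> nlinarith
  refine hi0r.trans ?_
  exact mul_le_mul_of_nonneg_left hlamr (by positivity)

theorem main : ∃ C : ℝ, ∀ n : ℕ, 16 ≤ n →
    ∑ p ∈ (range n).filter (fun p => p.Prime ∧ ¬ p ∣ centralBinom n), (1 : ℝ) / (p : ℝ) ≤
      Real.log (Real.log (Real.log n)) + C := by
  obtain ⟨i1, hi4, hi1⟩ := Sd_bound
  refine ⟨Real.log (1 + i1) + Real.log 450 + 4 + 864 * (91 + 14 + 15), fun n hn => ?_⟩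
  obtain ⟨T, hT⟩ : ∃ T, T = Nat.log 2 n := ⟨_, rfl⟩
  obtain ⟨lam, hlam⟩ : ∃ lam, lam = 100 * (Nat.log 2 T + 1) := ⟨_, rfl⟩
  obtain ⟨i0, hi0⟩ : ∃ i0, i0 = max lam i1 := ⟨_, rfl⟩
  have hi01 : i1 ≤ i0 := by rw [hi0]; exact le_max_right _ _
  refine (sum_split (i0 := i0) hT).trans ?_
  have hS := sum_large hi4 hi1 hT hlam hi0
  have hM : mP (2 ^ i0) ≤ Real.log i0 + 4 := by
    have h2 : 2 ≤ 2 ^ i0 := by
      calc 2 = 2 ^ 1 := by norm_num
        _ ≤ 2 ^ i0 := Nat.pow_le_pow_right (by norm_num) (by omega)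
    refine (mP_le h2).trans ?_
    push_cast
    rw [Real.log_pow]
    have hi0r : (1 : ℝ) ≤ i0 := by exact_mod_cast (by omega : 1 ≤ i0)
    have hl2 : 0 < Real.log 2 := Real.log_pos (by norm_num)
    have h3 : Real.log (i0 * Real.log 2) ≤ Real.log i0 := by
      refine Real.log_le_log (by positivity) ?_
      have := Real.log_two_lt_d9
      nlinarith
    linarith
  obtain ⟨hlogn, hloglog⟩ := loglog_ge hn
  have hi0pos : (0 : ℝ) < i0 := by exact_mod_cast (by omega : 0 < i0)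
  have hlogi0 : Real.log i0 ≤ Real.log (1 + i1) +
      (Real.log 450 + Real.log (Real.log (Real.log n))) := by
    have h1 := Real.log_le_log hi0pos (i0_le hn hi4 hT hlam hi0)
    rw [Real.log_mul (by positivity) (by positivity),
      Real.log_mul (by norm_num) (by positivity)] at h1
    linarith
  linarith

/-- The primes exceeding a fixed power of `log n` contribute a bounded amount. -/
theorem main_eps {ε : ℝ} (hε : 0 < ε) : ∃ C : ℝ, ∀ n : ℕ,
    ∑ p ∈ (range n).filter (fun p => p.Prime ∧ ¬ p ∣ centralBinom n ∧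
      Real.log n ^ ε < (p : ℝ)), (1 : ℝ) / (p : ℝ) ≤ C := by
  classical
  obtain ⟨i1, hi4, hi1⟩ := Sd_bound
  refine ⟨16 + (1 + i1) * 450 * 8 / ε + 864 * (91 + 14 + 15), fun n => ?_⟩
  by_cases hn : 16 ≤ n
  swap
  · have h1 : ∑ p ∈ (range n).filter (fun p => p.Prime ∧ ¬ p ∣ centralBinom n ∧
        Real.log n ^ ε < (p : ℝ)), (1 : ℝ) / (p : ℝ) ≤ 16 := by
      have h2 : ∀ p ∈ (range n).filter (fun p => p.Prime ∧ ¬ p ∣ centralBinom n ∧
          Real.log n ^ ε < (p : ℝ)), (1 : ℝ) / (p : ℝ) ≤ 1 := by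
        intro p hp
        rw [mem_filter] at hp
        have : (1 : ℝ) ≤ p := by exact_mod_cast hp.2.1.one_lt.le
        rw [div_le_one (by linarith)]
        exact this
      refine (Finset.sum_le_card_nsmul _ _ _ h2).trans ?_
      rw [nsmul_eq_mul, mul_one]
      have h3 := (Finset.card_filter_le (range n) (fun p => p.Prime ∧ ¬ p ∣ centralBinom n ∧
          Real.log n ^ ε < (p : ℝ)))
      rw [card_range] at h3
      exact_mod_cast h3.trans (by omega)
    have h2 : 0 ≤ (1 + (i1 : ℝ)) * 450 * 8 / ε := by positivity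
    linarith
  obtain ⟨hlogn, hloglog⟩ := loglog_ge hn
  obtain ⟨T, hT⟩ : ∃ T, T = Nat.log 2 n := ⟨_, rfl⟩
  obtain ⟨lam, hlam⟩ : ∃ lam, lam = 100 * (Nat.log 2 T + 1) := ⟨_, rfl⟩
  obtain ⟨i0, hi0⟩ : ∃ i0, i0 = max lam i1 := ⟨_, rfl⟩
  have hS := sum_large hi4 hi1 hT hlam hi0
  set J := (Icc 1 i0).filter (fun i : ℕ => ε * Real.log (Real.log n) < (i : ℝ) + 1) with hJ
  have hsub : (range n).filter (fun p => p.Prime ∧ ¬ p ∣ centralBinom n ∧
      Real.log n ^ ε < (p : ℝ)) ⊆ ({2} ∪ J.biUnion (fun i => bad n (2 ^ i) (2 * 2 ^ i))) ∪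
      (Icc i0 T).biUnion (fun i => bad n (2 ^ i) (2 * 2 ^ i)) := by
    intro p hp
    rw [mem_filter, mem_range] at hp
    rw [mem_union, mem_union]
    obtain ⟨hpn, hpp, hpc, hpl⟩ := hp
    have hp2 : 2 ≤ p := hpp.two_le
    by_cases h2 : p = 2
    · left; left; rw [h2]; simp
    obtain ⟨i, hi⟩ : ∃ i, i = Nat.log 2 (p - 1) := ⟨_, rfl⟩
    have h1 : 2 ^ i ≤ p - 1 := by rw [hi]; exact Nat.pow_log_le_self 2 (by omega)
    have h3 : p - 1 < 2 ^ (i + 1) := by rw [hi]; exact Nat.lt_pow_succ_log_self (by norm_num) _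
    have hbad : p ∈ bad n (2 ^ i) (2 * 2 ^ i) := by
      rw [bad, mem_filter, mem_Ioc]
      rw [pow_succ] at h3
      exact ⟨⟨by omega, by omega⟩, hpp, hpc⟩
    have hi1' : 1 ≤ i := by
      rw [hi]
      exact Nat.le_log_of_pow_le (by norm_num) (by omega)
    by_cases hii : i ≤ i0
    · left; right
      rw [mem_biUnion]
      refine ⟨i, ?_, hbad⟩
      rw [hJ, mem_filter, mem_Icc]
      refine ⟨⟨hi1', hii⟩, ?_⟩
      have h4 : Real.log n ^ ε < 2 ^ (i + 1) := by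
        refine lt_of_lt_of_le hpl ?_
        have : p ≤ 2 ^ (i + 1) := by omega
        exact_mod_cast this
      have h5 := Real.log_lt_log (by positivity) h4
      rw [Real.log_rpow (by linarith), Real.log_pow] at h5
      push_cast at h5
      have := Real.log_two_lt_d9
      have hi0' : (0 : ℝ) ≤ i := Nat.cast_nonneg i
      nlinarith
    · right
      rw [mem_biUnion]
      refine ⟨i, ?_, hbad⟩
      rw [mem_Icc]
      refine ⟨by omega, ?_⟩
      rw [hT, hi]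
      exact Nat.log_mono_right (by omega)
  have hnn : ∀ (s : Finset ℕ), 0 ≤ ∑ p ∈ s, (1 : ℝ) / (p : ℝ) := fun s =>
    Finset.sum_nonneg fun _ _ => by positivity
  have hunion : ∀ s t : Finset ℕ, ∑ p ∈ s ∪ t, (1 : ℝ) / (p : ℝ) ≤
      ∑ p ∈ s, (1 : ℝ) / (p : ℝ) + ∑ p ∈ t, (1 : ℝ) / (p : ℝ) := by
    intro s t
    rw [← Finset.sum_union_inter]
    have := hnn (s ∩ t)
    linarith
  have hdisj : ∀ K : Finset ℕ, ∑ p ∈ K.biUnion (fun i => bad n (2 ^ i) (2 * 2 ^ i)),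
      (1 : ℝ) / (p : ℝ) ≤ ∑ i ∈ K, Sd n i := by
    intro K
    rw [Finset.sum_biUnion]
    · exact le_rfl
    · intro i _ j _ hij
      change Disjoint (bad n (2 ^ i) (2 * 2 ^ i)) (bad n (2 ^ j) (2 * 2 ^ j))
      rw [Finset.disjoint_left]
      intro p hp hp'
      rw [bad, mem_filter, mem_Ioc] at hp hp'
      have h1 : i < j + 1 := by
        have : 2 ^ i < 2 ^ (j + 1) := by rw [pow_succ]; omega
        exact (Nat.pow_lt_pow_iff_right (by norm_num)).1 this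
      have h2 : j < i + 1 := by
        have : 2 ^ j < 2 ^ (i + 1) := by rw [pow_succ]; omega
        exact (Nat.pow_lt_pow_iff_right (by norm_num)).1 this
      omega
  have hJsum : ∑ i ∈ J, Sd n i ≤ (1 + i1) * 450 * 8 / ε := by
    have h1 : ∀ i ∈ J, Sd n i ≤ 8 / (ε * Real.log (Real.log n)) := by
      intro i hi
      rw [hJ, mem_filter, mem_Icc] at hi
      refine (cheb n hi.1.1).trans ?_
      have hir : (1 : ℝ) ≤ i := by exact_mod_cast hi.1.1
      rw [div_le_div_iff₀ (by linarith) (by positivity)]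
      linarith [hi.2]
    refine (Finset.sum_le_card_nsmul _ _ _ h1).trans ?_
    rw [nsmul_eq_mul]
    have h2 : (J.card : ℝ) ≤ (1 + i1) * (450 * Real.log (Real.log n)) := by
      refine le_trans ?_ (i0_le hn hi4 hT hlam hi0)
      have h3 : J.card ≤ i0 := by
        rw [hJ]
        refine (Finset.card_filter_le _ _).trans ?_
        rw [Nat.card_Icc, Nat.add_sub_cancel]
      exact_mod_cast h3
    calc (J.card : ℝ) * (8 / (ε * Real.log (Real.log n)))
        ≤ ((1 + i1) * (450 * Real.log (Real.log n))) * (8 / (ε * Real.log (Real.log n))) := by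
          gcongr
      _ = _ := by field_simp
  calc ∑ p ∈ (range n).filter (fun p => p.Prime ∧ ¬ p ∣ centralBinom n ∧
        Real.log n ^ ε < (p : ℝ)), (1 : ℝ) / (p : ℝ)
      ≤ ∑ p ∈ ({2} ∪ J.biUnion (fun i => bad n (2 ^ i) (2 * 2 ^ i))) ∪
      (Icc i0 T).biUnion (fun i => bad n (2 ^ i) (2 * 2 ^ i)), (1 : ℝ) / (p : ℝ) :=
        Finset.sum_le_sum_of_subset_of_nonneg hsub fun _ _ _ => by positivity
    _ ≤ (1 / 2 + ∑ i ∈ J, Sd n i) + ∑ i ∈ Icc i0 T, Sd n i := by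
        refine (hunion _ _).trans (add_le_add ((hunion _ _).trans (add_le_add ?_ (hdisj _)))
          (hdisj _))
        simp
    _ ≤ _ := by linarith

end Pool.Agent.CBRecip
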